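import Pool.Agent.KS6_36.TMU.Core

set_option autoImplicit false

/-! MP_41f3d4_co: an explicit polynomial chi-bounding function for graphs of induced matching
treewidth at most `k`, of degree quadratic in `k`. -/

namespace Pool.Agent.Results.MP_41f3d4_co.QuadraticExponent

open Pool.Agent.KS6_36.TMU

/-- Every finite graph `G` of induced matching treewidth at most `k` satisfies
`χ(G) ≤ (ω(G) + 1) ^ (k (3 k + 7) / 2)`. The same bound holds for infinite graphs without a
clique on `w + 1` vertices all of whose finite induced subgraphs have induced matching treewidth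
at most `k`. -/
theorem result :
    (∀ (k : ℕ) (V : Type) [Fintype V] (G : SimpleGraph V), TreeMuLE G k →
      G.chromaticNumber ≤ (((G.cliqueNum + 1) ^ (k * (3 * k + 7) / 2) : ℕ) : ℕ∞)) ∧
    (∀ (k w : ℕ) (V : Type) (G : SimpleGraph V), G.CliqueFree (w + 1) →
      (∀ A : Set V, A.Finite → TreeMuLE (G.induce A) k) →
      G.Colorable ((w + 1) ^ (k * (3 * k + 7) / 2))) := by
  classical
  refine ⟨?_, fun k w V G hw h => colorable_infinite G k w hw h⟩
  intro k V _ G h
  refine (colorable G k G.cliqueNum ?_ h).chromaticNumber_le
  intro s hs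
  have h1 := SimpleGraph.IsClique.card_le_cliqueNum (tc := hs.isClique)
  have h2 := hs.card_eq
  omega

end Pool.Agent.Results.MP_41f3d4_co.QuadraticExponent
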